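import Mathlib
import Pool.Agent.V113.FP.Lemmas

namespace Pool.Agent.Results.MP_43a2f8_nt.BiquadrateFree

open Pool.Agent.V113.FP

/-- A fixed point `n` of `n ↦ ∑_{d ∣ n, d < n} d τ(d)` not divisible by the fourth power of a prime
is `21`, or squarefree, coprime to `6`, `≡ 7 (mod 8)` and with an odd number, at least `5`, of
prime factors. -/
theorem result (n : ℕ) (hn : 0 < n) (hfix : properSum n = n)
    (h4 : ∀ p, p.Prime → ¬ p ^ 4 ∣ n) :
    n = 21 ∨ (Squarefree n ∧ Nat.Coprime n 6 ∧ n % 8 = 7 ∧ Odd n.primeFactors.card ∧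
      5 ≤ n.primeFactors.card) := by
  by_cases h21 : n = 21
  · exact Or.inl h21
  · right
    have h3 : ¬ 3 ∣ n := fun h => h21 (three_fix hn hfix h)
    have hodd := odd_fix hn hfix
    have hs := squarefree_of_biquadratefree hn hfix h4
    refine ⟨hs, ?_, squarefree_mod_eight hs hfix h21, squarefree_odd hs hfix h21,
      squarefree_five hs hfix h21⟩
    rw [show (6 : ℕ) = 2 * 3 by norm_num]
    apply Nat.Coprime.mul_right
    · exact ((Nat.Prime.coprime_iff_not_dvd Nat.prime_two).2 hodd).symm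
    · exact ((Nat.Prime.coprime_iff_not_dvd Nat.prime_three).2 h3).symm

end Pool.Agent.Results.MP_43a2f8_nt.BiquadrateFree
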