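import Mathlib
import Pool.Agent.V113.FP.Lemmas

namespace Pool.Agent.Results.MP_43a2f8_nt.ExponentTypes

open Pool.Agent.V113.FP

/-- Every fixed point of `n ↦ ∑_{d ∣ n, d < n} d τ(d)` is either not a perfect square, with all its
exponents `≡ 0, 1 (mod 4)`, or a perfect square with an odd number of exponents `≡ 2 (mod 4)`. -/
theorem result (n : ℕ) (hn : 0 < n) (hfix : properSum n = n) :
    (¬ IsSquare n ∧ ∀ p, p.Prime → n.factorization p % 4 = 0 ∨ n.factorization p % 4 = 1) ∨
    (IsSquare n ∧ Odd (n.primeFactors.filter (fun p => n.factorization p % 4 = 2)).card) := by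
  by_cases hsq : IsSquare n
  · exact Or.inr ⟨hsq, square_case hn hfix hsq⟩
  · refine Or.inl ⟨hsq, fun p _ => ?_⟩
    by_cases hp : p ∈ n.primeFactors
    · exact exp_mod_four hn hfix hsq hp
    · rw [← Nat.support_factorization, Finsupp.notMem_support_iff] at hp
      omega

end Pool.Agent.Results.MP_43a2f8_nt.ExponentTypes
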